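import Pool.Agent.H53.MC.Targets

/-!
Row LF of `msc_modules` (MP_c62aed_lc): few formulas are bad for a chain.
-/

set_option autoImplicit false

namespace Pool.Agent.H5.MSC

open Finset
open Pool.Agent.H53.MC

open Classical in
theorem natCard_filter {α : Type} [Fintype α] (P : α → Prop) :
    Nat.card {a : α // P a} = (univ.filter P).card := by
  rw [Nat.card_eq_fintype_card, Fintype.card_subtype]

/-- the formulas which contain `T` and are bad above `T` -/
def BADP {n M k : ℕ} (e : Fin M → Fin k → Fin n) {m : ℕ}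
    (𝒦 : Set (Set (Finset (Fin n) × (Fin n → Bool)))) (T : Finset (U M k)) (l : ℕ)
    (F : Fin m → U M k) : Prop :=
  InR F T ∧ ∃ K ∈ 𝒦, (∀ p ∈ K, ∃ j, Ins e p (F j)) ∧
    ∀ T2 : Finset (U M k), T ⊆ T2 → InR F T2 → T2.card ≤ T.card + l →
      ∃ p ∈ K, ∀ c ∈ T2, ¬ Ins e p c

section

variable {n M k : ℕ} (e : Fin M → Fin k → Fin n)
  (𝒦 : Set (Set (Finset (Fin n) × (Fin n → Bool))))

/-- the smallest kernel with a member not hit by `T` -/
theorem step (hch : IsChain (· ⊆ ·) 𝒦) (w : ℕ) (hw : ∀ K ∈ 𝒦, ∀ p ∈ K, p.1.card < w)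
    (T : Finset (U M k)) :
    (∀ (m l : ℕ) (F : Fin m → U M k), ¬ BADP e 𝒦 T l F) ∨
    ∃ p : Finset (Fin n) × (Fin n → Bool), p.1.card < w ∧ (∀ c ∈ T, ¬ Ins e p c) ∧
      ∀ (m l : ℕ) (F : Fin m → U M k), BADP e 𝒦 T l F → ∃ j, Ins e p (F j) := by
  classical
  by_cases h : ∃ K ∈ 𝒦, ∃ p ∈ K, ∀ c ∈ T, ¬ Ins e p c
  · right
    let S : Set (Set (Finset (Fin n) × (Fin n → Bool))) :=
      {K | K ∈ 𝒦 ∧ ∃ p ∈ K, ∀ c ∈ T, ¬ Ins e p c}
    have hne : S.Nonempty := by
      obtain ⟨K, hK, hp⟩ := h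
      exact ⟨K, hK, hp⟩
    have hwf : WellFounded
        (fun A B : Set (Finset (Fin n) × (Fin n → Bool)) => A < B) := wellFounded_lt
    obtain ⟨K0, hK0, hmin⟩ := hwf.has_min S hne
    obtain ⟨hK0c, p, hpK, hpT⟩ := hK0
    refine ⟨p, hw K0 hK0c p hpK, hpT, ?_⟩
    intro m l F hF
    obtain ⟨hR, K2, hK2, hhit, hbad⟩ := hF
    have hK2S : K2 ∈ S := ⟨hK2, hbad T (Finset.Subset.refl T) hR (Nat.le_add_right _ _)⟩
    have hsub : K0 ⊆ K2 := by
      rcases hch.total hK0c hK2 with h1 | h1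
      · exact h1
      · have h2 := hmin K2 hK2S
        by_contra h3
        exact h2 (lt_of_le_not_ge h1 h3)
    exact hhit p (hsub hpK)
  · left
    intro m l F hF
    obtain ⟨hR, K2, hK2, -, hbad⟩ := hF
    exact h ⟨K2, hK2, hbad T (Finset.Subset.refl T) hR (Nat.le_add_right _ _)⟩

open Classical in
/-- the clauses of a set are counted by a bound for each of them -/
theorem cnt_le {m : ℕ} (P : (Fin m → U M k) → Prop) (C : Finset (U M k))
    (Q : U M k → (Fin m → U M k) → Prop) (b s : ℕ) (hC : C.card ≤ s)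
    (hPQ : ∀ F, P F → ∃ c ∈ C, Q c F) (hQ : ∀ c ∈ C, Nat.card {F // Q c F} ≤ b) :
    Nat.card {F // P F} ≤ s * b := by
  rw [natCard_filter]
  have h1 : univ.filter P ⊆ C.biUnion fun c => univ.filter (Q c) := by
    intro F hF
    rw [mem_filter] at hF
    obtain ⟨c, hc, hq⟩ := hPQ F hF.2
    rw [mem_biUnion]
    exact ⟨c, hc, by rw [mem_filter]; exact ⟨mem_univ _, hq⟩⟩
  calc (univ.filter P).card ≤ (C.biUnion fun c => univ.filter (Q c)).card := card_le_card h1
    _ ≤ ∑ c ∈ C, (univ.filter (Q c)).card := card_biUnion_le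
    _ ≤ ∑ _c ∈ C, b := by
        refine sum_le_sum (fun c hc => ?_)
        rw [← natCard_filter]
        exact hQ c hc
    _ = C.card * b := by rw [sum_const, smul_eq_mul]
    _ ≤ s * b := Nat.mul_le_mul_right _ hC

end

open Classical in
/-- the claim -/
theorem claim (hRG : T_RG) (hHIT : T_HIT) {n M k : ℕ} (e : Fin M → Fin k → Fin n)
    (w s₀ m : ℕ) (hH : H1 e w s₀) (𝒦 : Set (Set (Finset (Fin n) × (Fin n → Bool))))
    (hch : IsChain (· ⊆ ·) 𝒦) (hw : ∀ K ∈ 𝒦, ∀ p ∈ K, p.1.card < w) :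
    ∀ (l : ℕ) (T : Finset (U M k)), T.card + l + 1 ≤ m →
      Nat.card {F : Fin m → U M k // BADP e 𝒦 T l F} ≤
        s₀ ^ (l + 1) * (m ^ (T.card + l + 1) * (M * 2 ^ k) ^ (m - (T.card + l + 1))) := by
  have hU : Fintype.card (U M k) = M * 2 ^ k := by
    rw [Fintype.card_prod, Fintype.card_fin, Fintype.card_fun, Fintype.card_bool,
      Fintype.card_fin]
  have hemp : ∀ (T : Finset (U M k)) (l b : ℕ),
      (∀ F : Fin m → U M k, ¬ BADP e 𝒦 T l F) →
      Nat.card {F : Fin m → U M k // BADP e 𝒦 T l F} ≤ b := by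
    intro T l b h
    have : IsEmpty {F : Fin m → U M k // BADP e 𝒦 T l F} := ⟨fun F => h F.1 F.2⟩
    rw [Nat.card_of_isEmpty]
    exact Nat.zero_le _
  intro l
  induction l with
  | zero =>
    intro T hT
    rcases step e 𝒦 hch w hw T with h | ⟨p, hp, hpT, hhit⟩
    · exact hemp T 0 _ (fun F => h m 0 F)
    · have hC : (univ.filter fun c : U M k => Ins e p c).card ≤ s₀ := by
        rw [← natCard_filter]
        exact (hHIT e w s₀ hH p hp).1
      rw [zero_add, pow_one]
      refine cnt_le (fun F => BADP e 𝒦 T 0 F) (univ.filter fun c : U M k => Ins e p c)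
        (fun c F => c ∉ T ∧ InR F (insert c T)) _ s₀ hC ?_ ?_
      · intro F hF
        obtain ⟨j, hj⟩ := hhit m 0 F hF
        refine ⟨F j, by rw [mem_filter]; exact ⟨mem_univ _, hj⟩, fun hc => hpT _ hc hj, ?_⟩
        intro c hc
        rcases mem_insert.1 hc with h1 | h1
        · exact ⟨j, h1.symm⟩
        · exact hF.1 c h1
      · intro c _
        by_cases hcT : c ∈ T
        · have : IsEmpty {F : Fin m → U M k // c ∉ T ∧ InR F (insert c T)} :=
            ⟨fun F => F.2.1 hcT⟩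
          rw [Nat.card_of_isEmpty]
          exact Nat.zero_le _
        · have hcard : (insert c T).card = T.card + 1 := card_insert_of_notMem hcT
          have h1 := hRG m (insert c T) (by rw [hcard]; omega)
          rw [hcard, hU] at h1
          refine le_trans (Nat.card_mono (Set.toFinite _) ?_) h1
          intro F hF
          exact hF.2
  | succ l ih =>
    intro T hT
    rcases step e 𝒦 hch w hw T with h | ⟨p, hp, hpT, hhit⟩
    · exact hemp T (l + 1) _ (fun F => h m (l + 1) F)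
    · have hC : (univ.filter fun c : U M k => Ins e p c).card ≤ s₀ := by
        rw [← natCard_filter]
        exact (hHIT e w s₀ hH p hp).1
      have hpow : s₀ ^ (l + 1 + 1) * (m ^ (T.card + (l + 1) + 1) *
          (M * 2 ^ k) ^ (m - (T.card + (l + 1) + 1))) = s₀ * (s₀ ^ (l + 1) *
          (m ^ (T.card + 1 + l + 1) * (M * 2 ^ k) ^ (m - (T.card + 1 + l + 1)))) := by
        have e1 : T.card + (l + 1) + 1 = T.card + 1 + l + 1 := by omega
        rw [e1, pow_succ s₀ (l + 1)]
        ring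
      rw [hpow]
      refine cnt_le (fun F => BADP e 𝒦 T (l + 1) F) (univ.filter fun c : U M k => Ins e p c)
        (fun c F => c ∉ T ∧ BADP e 𝒦 (insert c T) l F) _ s₀ hC ?_ ?_
      · intro F hF
        obtain ⟨j, hj⟩ := hhit m (l + 1) F hF
        have hnT : F j ∉ T := fun hc => hpT _ hc hj
        refine ⟨F j, by rw [mem_filter]; exact ⟨mem_univ _, hj⟩, hnT, ?_, ?_⟩
        · intro c hc
          rcases mem_insert.1 hc with h1 | h1
          · exact ⟨j, h1.symm⟩
          · exact hF.1 c h1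
        · obtain ⟨-, K, hK, hKh, hKb⟩ := hF
          refine ⟨K, hK, hKh, ?_⟩
          intro T2 hT2 hR2 hc2
          refine hKb T2 (subset_trans (subset_insert _ _) hT2) hR2 ?_
          rw [card_insert_of_notMem hnT] at hc2
          omega
      · intro c _
        by_cases hcT : c ∈ T
        · have : IsEmpty {F : Fin m → U M k // c ∉ T ∧ BADP e 𝒦 (insert c T) l F} :=
            ⟨fun F => F.2.1 hcT⟩
          rw [Nat.card_of_isEmpty]
          exact Nat.zero_le _
        · have hcard : (insert c T).card = T.card + 1 := card_insert_of_notMem hcT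
          have h1 := ih (insert c T) (by rw [hcard]; omega)
          rw [hcard] at h1
          refine le_trans (Nat.card_mono (Set.toFinite _) ?_) h1
          intro F hF
          exact hF.2

/-- LF -/
theorem pf_LF (hRG : T_RG) (hHIT : T_HIT) : T_LF := by
  intro n M k e w s₀ m q hH hq 𝒦 hch hw
  have h := claim hRG hHIT e w s₀ m hH 𝒦 hch hw q ∅ (by rw [card_empty]; omega)
  rw [card_empty, zero_add, ← mul_assoc, ← mul_pow] at h
  refine le_trans (Nat.card_mono (Set.toFinite _) ?_) h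
  intro F hF
  obtain ⟨K, hK, hKh, hKb⟩ := hF
  refine ⟨fun c hc => absurd hc (notMem_empty c), K, hK, hKh, ?_⟩
  intro T2 _ hR2 hc2
  refine hKb T2 hR2 ?_
  rw [card_empty, zero_add] at hc2
  exact hc2

end Pool.Agent.H5.MSC
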